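import Mathlib
import Pool.Agent.H59.SG2

set_option autoImplicit false

namespace Pool.Agent.Results.MP_2b461e_nt.Four

open Finset Filter Pool.Agent.H59.SG

/-- `S n`: nondecreasing `n`-tuples of positive integers with `σ₂ = σₙ`. -/
def S (n : ℕ) : Set (Fin n → ℕ) :=
  {x | Monotone x ∧ (∀ i, 0 < x i) ∧ ∑ i, ∑ j ∈ Ioi i, x i * x j = ∏ i, x i}

/-- `M n`: the least number of distinct entries of a tuple in `S n`. -/
noncomputable def M (n : ℕ) : ℕ := sInf ((fun x => (univ.image x).card) '' S n)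

lemma sq_sum {n : ℕ} (x : Fin n → ℕ) :
    2 * ∑ i, ∑ j ∈ Ioi i, x i * x j + ∑ i, x i ^ 2 = (∑ i, x i) ^ 2 := by
  have := sum_sum_Ioi_add_eq_sum_sum_off_diag (fun a b => x a * x b)
  rw [show 2 * ∑ i, ∑ j ∈ Ioi i, x i * x j = _ from Eq.trans (by
    simp only [mul_sum]; exact sum_congr rfl fun i _ => sum_congr rfl fun j _ => by ring) this,
    sq (∑ i, x i), sum_mul_sum, ← sum_add_distrib]
  refine sum_congr rfl fun i _ => ?_
  rw [← sum_add_sum_compl {i}, sum_singleton, add_comm, sq]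
  exact congrArg _ (sum_congr rfl fun j _ => mul_comm _ _)

lemma ex (m : ℕ) : ∃ x ∈ S (m + 3), (univ.image x).card ≤ 4 := by
  obtain ⟨z, hz⟩ : 2 ∣ (m + 3) * (3 * m + 4) := by
    rcases Nat.even_or_odd' m with ⟨k, rfl | rfl⟩
    exacts [⟨(2 * k + 3) * (3 * k + 2), by ring⟩, ⟨(k + 2) * (6 * k + 7), by ring⟩]
  have z1 : m + 3 ≤ z := by nlinarith
  set g : ℕ → ℕ := fun i => if i < m then 1 else if i = m then 2 else if i = m + 1 then m + 3 else z
    with hg
  have s : ∀ f : ℕ → ℕ, ∑ i : Fin (m + 3), f (g i) = m * f 1 + f 2 + f (m + 3) + f z := fun f => by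
    rw [Fin.sum_univ_eq_sum_range (fun i => f (g i)), sum_range_succ, sum_range_succ,
      sum_range_succ, sum_congr rfl (g := fun _ => f 1) fun i hi => by
        rw [hg]; simp only [mem_range.1 hi, if_true]]
    simp [hg]
  have p : ∏ i : Fin (m + 3), g i = 2 * (m + 3) * z := by
    rw [Fin.prod_univ_eq_prod_range g, prod_range_succ, prod_range_succ, prod_range_succ,
      prod_eq_one fun i hi => by rw [hg]; simp only [mem_range.1 hi, if_true]]
    simp [hg]
  refine ⟨fun i => g i, ⟨fun a b h => ?_, fun i => ?_, ?_⟩, (card_le_card (t := {1, 2, m + 3, z})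
    fun v hv => ?_).trans card_le_four⟩
  · have : a.1 ≤ b.1 := h
    simp only [hg]; split_ifs <;> omega
  · simp only [hg]; split_ifs <;> omega
  · have := sq_sum fun i : Fin (m + 3) => g i
    rw [s (· ^ 2), s fun v => v] at this
    rw [p]
    nlinarith
  · obtain ⟨i, -, rfl⟩ := mem_image.1 hv
    simp only [hg, mem_insert, mem_singleton]; split_ifs <;> simp

lemma big {n : ℕ} {x : Fin n → ℕ} (h : x ∈ S n) : 2 ^ (univ.filter fun i => x i ≠ 1).card ≤ 4 * n ^ 2 := by
  obtain ⟨-, h0, h⟩ := h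
  set T := univ.filter fun i => x i ≠ 1 with hT
  have a : ∀ i j, i < j → x i * x j * 2 ^ T.card ≤ 4 * ∏ i, x i := fun i j l => by
    have jm : j ∈ univ.erase i := by simp [l.ne']
    rw [← mul_prod_erase _ _ (mem_univ i), ← mul_prod_erase _ _ jm]
    have b : 2 ^ ((T.erase i).erase j).card ≤ ∏ k ∈ (univ.erase i).erase j, x k := by
      refine le_trans ?_ (prod_le_prod_of_subset_of_one_le' (erase_subset_erase _
        (erase_subset_erase _ (subset_univ T))) fun k _ _ => h0 k)
      exact pow_card_le_prod _ _ _ fun k hk => by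
        have := (mem_filter.1 (mem_of_mem_erase (mem_of_mem_erase hk))).2
        have := h0 k
        omega
    have c := pred_card_le_card_erase (s := T) (a := i)
    have d := pred_card_le_card_erase (s := T.erase i) (a := j)
    have e : 2 ^ T.card ≤ 2 ^ (((T.erase i).erase j).card + 2) := Nat.pow_le_pow_right two_pos (by omega)
    rw [pow_add] at e
    calc _ ≤ x i * x j * ((∏ k ∈ (univ.erase i).erase j, x k) * 2 ^ 2) :=
          Nat.mul_le_mul_left _ (e.trans (Nat.mul_le_mul_right _ b))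
      _ = _ := by ring
  have P0 : 0 < ∏ i, x i := prod_pos fun i _ => h0 i
  refine Nat.le_of_mul_le_mul_left ?_ P0
  calc _ = ∑ i, ∑ j ∈ Ioi i, x i * x j * 2 ^ T.card := by simp only [← sum_mul, h]
    _ ≤ ∑ _i : Fin n, n * (4 * ∏ i, x i) := sum_le_sum fun i _ => (sum_le_card_nsmul _ _ _
        fun j hj => a i j (mem_Ioi.1 hj)).trans (Nat.mul_le_mul_right _
        ((card_le_univ _).trans (by simp)))
    _ = _ := by simp; ring

lemma red {n : ℕ} (hn : 10 ≤ n) {x : Fin n → ℕ} (h : x ∈ S n) (h3 : (univ.image x).card ≤ 3) :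
    ∃ m k a l b, 1 ≤ m ∧ 1 ≤ k ∧ 1 ≤ l ∧ 2 ≤ a ∧ 2 ≤ b ∧ n = m + k + l ∧ 2 ^ (k + l) ≤ 4 * n ^ 2 ∧
      E m k a l b := by
  have hb := big h
  obtain ⟨-, h0, h⟩ := h
  set T := univ.filter fun i => x i ≠ 1 with hT
  set m := (univ.filter fun i => x i = 1).card with hm
  have nm : m + T.card = n := by
    rw [hm, hT, card_filter_add_card_filter_not]; simp
  have m1 : 1 ≤ m := by
    by_contra hc
    rw [show T.card = n by omega] at hb
    clear nm hm h3 h h0 hc m hT T x
    induction n, hn using Nat.le_induction with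
    | base => norm_num at hb
    | succ n hn ih => rw [pow_succ] at hb; exact ih (by nlinarith)
  obtain ⟨i0, hi0⟩ := card_pos.1 m1
  have c2 : ((univ.image x).erase 1).card ≤ 2 := by
    rw [card_erase_of_mem (mem_image.2 ⟨i0, mem_univ _, (mem_filter.1 hi0).2⟩)]; omega
  obtain ⟨a, b, a2, b2, ab, hab⟩ : ∃ a b, 2 ≤ a ∧ 2 ≤ b ∧ a ≠ b ∧ ∀ i, x i = 1 ∨ x i = a ∨ x i = b := by
    have two : ∀ v ∈ (univ.image x).erase 1, 2 ≤ v := fun v hv => by
      obtain ⟨c, hv⟩ := mem_erase.1 hv
      obtain ⟨i, -, rfl⟩ := mem_image.1 hv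
      have := h0 i; omega
    have mem : ∀ i, x i = 1 ∨ x i ∈ (univ.image x).erase 1 := fun i => by
      by_cases c : x i = 1 <;> simp [c]
    rcases (show _ = 0 ∨ _ = 1 ∨ _ = 2 from by omega : ((univ.image x).erase 1).card = 0 ∨
      ((univ.image x).erase 1).card = 1 ∨ ((univ.image x).erase 1).card = 2) with c | c | c
    · rw [card_eq_zero.1 c] at mem
      exact ⟨2, 3, le_rfl, by omega, by omega, fun i => Or.inl (by simpa using mem i)⟩
    · obtain ⟨a, c⟩ := card_eq_one.1 c
      rw [c] at mem two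
      have := two a (by simp)
      exact ⟨a, a + 1, this, by omega, by omega, fun i => by
        rcases mem i with h | h
        exacts [Or.inl h, Or.inr (Or.inl (by simpa using h))]⟩
    · obtain ⟨a, b, ab, c⟩ := card_eq_two.1 c
      rw [c] at mem two
      exact ⟨a, b, two a (by simp), two b (by simp), ab, fun i => by simpa using mem i⟩
  set k := (univ.filter fun i => x i = a).card with hk
  set l := (univ.filter fun i => x i = b).card with hl
  have s : ∀ f : ℕ → ℕ, ∑ i, f (x i) = m * f 1 + k * f a + l * f b := fun f => by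
    simp only [hm, hk, hl, card_filter, sum_mul, ← sum_add_distrib]
    refine sum_congr rfl fun i _ => ?_
    rcases hab i with c | c | c <;> rw [c] <;> split_ifs <;> first | omega | simp
  have p : ∏ i, x i = a ^ k * b ^ l := by
    simp only [hk, hl, card_filter, ← prod_pow_eq_pow_sum, ← prod_mul_distrib]
    refine prod_congr rfl fun i _ => ?_
    rcases hab i with c | c | c <;> rw [c] <;> split_ifs <;> first | omega | simp
  have n1 : n = m + k + l := by simpa using s fun _ => 1
  have e : E m k a l b := by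
    have := sq_sum x
    rw [s (· ^ 2), s fun v => v, h, p] at this
    simpa [E] using this
  rw [show T.card = k + l by omega] at hb
  have one : ∀ {k a b : ℕ}, 2 ≤ a → n = m + k → E m k a 0 b → ∃ k', k = k' + 1 ∧ 1 ≤ k' ∧
      E m k' a 1 a := fun {k a b} a2 n1 e => by
    unfold E at *
    rcases k with _ | _ | k
    · exfalso; simp at e; nlinarith
    · exfalso; simp at e; nlinarith
    · exact ⟨k + 1, rfl, by omega, by linear_combination e⟩
  rcases l.eq_zero_or_pos with l0 | l0
  · rw [l0] at e n1 hb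
    obtain ⟨k', rfl', k1, e⟩ := one a2 n1 e
    exact ⟨m, k', a, 1, a, m1, k1, le_rfl, a2, a2, by omega, by rwa [rfl'] at hb, e⟩
  rcases k.eq_zero_or_pos with k0 | k0
  · rw [k0] at e n1 hb
    obtain ⟨k', rfl', k1, e⟩ := one b2 (by omega) e.symm
    exact ⟨m, k', b, 1, b, m1, k1, le_rfl, b2, b2, by omega, by rwa [zero_add, rfl'] at hb, e⟩
  exact ⟨m, k, a, l, b, m1, k0, l0, a2, b2, n1, hb, e⟩

theorem result : (∀ n, 3 ≤ n → (S n).Nonempty) ∧ {n | M n = 4}.Infinite ∧ limsup M atTop = 4 := by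
  have ne : ∀ n, 3 ≤ n → ∃ x ∈ S n, (univ.image x).card ≤ 4 := fun n hn => by
    obtain ⟨m, rfl⟩ := Nat.exists_eq_add_of_le' hn
    exact ex m
  have up : ∀ n, 3 ≤ n → M n ≤ 4 := fun n hn =>
    let ⟨x, a, b⟩ := ne n hn
    (Nat.sInf_le (s := (fun x => (univ.image x).card) '' S n) ⟨x, a, rfl⟩).trans b
  have fr : ∀ N, ∃ n, N ≤ n ∧ M n = 4 := fun N => by
    classical
    by_contra hc
    push Not at hc
    obtain ⟨K, hK⟩ := count (N + 10)
    have := card_le_card (s := Icc (N + 10) K) (fun n hn => mem_filter.2 ⟨mem_range.2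
      (Nat.lt_succ_of_le (mem_Icc.1 hn).2), by
      have hn := (mem_Icc.1 hn).1
      obtain ⟨x, a, -⟩ := ne n (by omega)
      obtain ⟨y, b, c⟩ := Nat.sInf_mem (s := (fun x => (univ.image x).card) '' S n) ⟨_, x, a, rfl⟩
      have := up n (by omega)
      have := hc n (by omega)
      exact red (by omega) b (by change _ = M n at c; simp only at c; omega)⟩) |>.trans
      (Nat.le_sub_of_add_le hK)
    rw [Nat.card_Icc] at this
    omega
  refine ⟨fun n hn => let ⟨x, a, _⟩ := ne n hn; ⟨x, a⟩, Set.infinite_of_forall_exists_gt fun N =>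
    let ⟨n, a, b⟩ := fr (N + 1); ⟨n, b, a⟩, le_antisymm ?_ ?_⟩
  · exact limsup_le_of_le (h := eventually_atTop.2 ⟨3, up⟩)
  · exact le_limsup_of_frequently_le (frequently_atTop.2 fun N =>
      let ⟨n, a, b⟩ := fr N; ⟨n, a, b.ge⟩) ⟨4, eventually_atTop.2 ⟨3, up⟩⟩

end Pool.Agent.Results.MP_2b461e_nt.Four
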